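import Mathlib
import Pool.Agent.helper62.GR.Main

/-!
# The function field analogue of the triviality of the normalized regulator for large primes
-/

set_option autoImplicit false

namespace Pool.Agent.Results.MP_1a2828_nt.FunctionFields

open Polynomial

/-- `x ≡ 1` modulo `P ^ 2` in the localization at `P` of the integral closure of `F[t]` in `K`:
some multiple `s (x - 1)`, with `s` in `F[t]` not divisible by `P`, is `P ^ 2` times an integral
element. -/
def CongrOne {F K : Type*} [Field F] [Field K] [Algebra F[X] K] (P : F[X]) (x : K) : Prop :=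
  ∃ (s : F[X]) (z : K), ¬ P ∣ s ∧ IsIntegral F[X] z ∧
    algebraMap F[X] K s * (x - 1) = algebraMap F[X] K P ^ 2 * z

open Pool.Agent.helper62.GR

section aux

variable (F : Type*) [Field F] (p : ℕ) [Fact p.Prime] [CharP F p]
  (K : Type*) [Field K] [Algebra F[X] K] [Algebra (RatFunc F) K]
  [IsScalarTower F[X] (RatFunc F) K] [FiniteDimensional (RatFunc F) K]
  [Algebra.IsSeparable (RatFunc F) K]

/-- A finitely generated group has finitely many classes modulo `p`-th powers. -/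
theorem exists_reps {G : Type*} [CommGroup G] (Γ : Subgroup G) (hΓ : Γ.FG) :
    ∃ T : Set G, T.Finite ∧ T ⊆ Γ ∧ ∀ ε ∈ Γ, ∃ γ ∈ T, ∃ η : G, ε = γ * η ^ p := by
  haveI : Group.FG Γ := (Group.fg_iff_subgroup_fg Γ).2 hΓ
  set N : Subgroup Γ := (powMonoidHom p : Γ →* Γ).range with hN
  haveI : Finite (Γ ⧸ N) := by
    refine CommGroup.finite_of_fg_isMulTorsion _ ?_
    intro q
    induction q using QuotientGroup.induction_on with
    | H g =>
      rw [isOfFinOrder_iff_pow_eq_one]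
      refine ⟨p, (Fact.out : p.Prime).pos, ?_⟩
      rw [← QuotientGroup.mk_pow, QuotientGroup.eq_one_iff]
      exact ⟨g, rfl⟩
  refine ⟨Set.range (fun q : Γ ⧸ N => ((Quotient.out q : Γ) : G)), Set.finite_range _, ?_, ?_⟩
  · rintro _ ⟨q, rfl⟩; exact (Quotient.out q : Γ).2
  · intro ε hε
    refine ⟨_, ⟨((⟨ε, hε⟩ : Γ) : Γ ⧸ N), rfl⟩, ?_⟩
    have h1 : (((Quotient.out ((⟨ε, hε⟩ : Γ) : Γ ⧸ N) : Γ)) : Γ ⧸ N) = ((⟨ε, hε⟩ : Γ) : Γ ⧸ N) :=
      Quotient.out_eq' _
    obtain ⟨η, hη⟩ := QuotientGroup.eq.1 h1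
    refine ⟨(η : G), ?_⟩
    have h2 := congrArg (fun z : Γ => (z : G)) hη
    simp only [powMonoidHom_apply, Subgroup.coe_pow, Subgroup.coe_mul, Subgroup.coe_inv] at h2
    rw [h2]; group

theorem finite_general [PerfectField F] (Γ : Subgroup Kˣ) (hΓ : Γ.FG) :
    {P : F[X] | P.Monic ∧ Irreducible P ∧ ∃ ε ∈ Γ, (¬ ∃ η : Kˣ, η ^ p = ε) ∧
      ∃ m : ℕ, ¬ p ∣ m ∧ CongrOne P ((ε : K) ^ m)}.Finite := by
  classical
  obtain ⟨d, hd⟩ := exists_der F K
  obtain ⟨Δ, hΔ0, hΔ⟩ := exists_delta F K d hd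
  obtain ⟨T, hT, hTΓ, hrep⟩ := exists_reps p Γ hΓ
  haveI : Algebra.IsAlgebraic F[X] K :=
    (IsFractionRing.comap_isAlgebraic_iff (A := F[X]) (K := RatFunc F) (C := K)).mpr inferInstance
  have hden : ∀ γ : Kˣ, ∃ c : F[X], c ≠ 0 ∧
      IsIntegral F[X] (algebraMap F[X] K c * (d (γ : K) / (γ : K))) := by
    intro γ
    obtain ⟨c, hc0, hc⟩ :=
      (Algebra.IsAlgebraic.isAlgebraic (R := F[X]) (d (γ : K) / (γ : K))).exists_integral_multiple
    exact ⟨c, hc0, by rwa [Algebra.smul_def] at hc⟩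
  choose c hc0 hc using hden
  set bad : Kˣ → Set F[X] := fun γ => {P : F[X] | P.Monic ∧ Irreducible P ∧ d (γ : K) ≠ 0 ∧
      ∃ w : K, IsIntegral F[X] w ∧
        algebraMap F[X] K P * w = algebraMap F[X] K Δ * (algebraMap F[X] K (c γ) *
          (d (γ : K) / (γ : K)))} with hbad
  have hfin : ∀ γ : Kˣ, (bad γ).Finite := by
    intro γ
    by_cases h0 : d (γ : K) = 0
    · have : bad γ = ∅ := by
        ext P; simp [hbad, h0]
      rw [this]; exact Set.finite_empty
    · refine (finite_div F K _ ((isIntegral_algebraMap (x := Δ)).mul (hc γ)) ?_).subset ?_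
      · refine mul_ne_zero (fun h => hΔ0 ((map_eq_zero_iff _ (algInj F K)).1 h))
          (mul_ne_zero (fun h => hc0 γ ((map_eq_zero_iff _ (algInj F K)).1 h))
            (div_ne_zero h0 γ.ne_zero))
      · rintro P ⟨h1, h2, _, h3⟩
        exact ⟨h1, h2, h3⟩
  refine (hT.biUnion (fun γ _ => hfin γ)).subset ?_
  rintro P ⟨hm, hP, ε, hε, hnot, m, hpm, s, z, hs, hz, hsz⟩
  obtain ⟨γ, hγT, η, hη⟩ := hrep ε hε
  refine Set.mem_biUnion hγT ⟨hm, hP, ?_, ?_⟩
  · intro h0
    obtain ⟨r, hr⟩ := ker F p K d hd (γ : K) h0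
    have hr0 : r ≠ 0 := by
      rintro rfl
      rw [zero_pow (Fact.out : p.Prime).ne_zero] at hr
      exact γ.ne_zero hr.symm
    refine hnot ⟨Units.mk0 r hr0 * η, ?_⟩
    rw [mul_pow, hη]
    congr 1
    exact Units.ext (by simpa using hr)
  · have hmF : (m : F) ≠ 0 := by
      intro h; exact hpm ((CharP.cast_eq_zero_iff F p m).1 h)
    have hE : d (ε : K) / (ε : K) = d (γ : K) / (γ : K) := by
      rw [hη]
      push_cast
      rw [Derivation.leibniz, d_pow F p K d, smul_zero, zero_add, smul_eq_mul]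
      have h1 : ((η : K) ^ p) ≠ 0 := pow_ne_zero _ η.ne_zero
      have h2 := γ.ne_zero
      field_simp
    have := main_step F K d hd Δ hΔ (ε := (ε : K)) ε.ne_zero hP hmF hs hz hsz
      (c := c γ) (by rw [hE]; exact hc γ)
    rwa [hE] at this

end aux

/-- The function field analogue, for finitely generated groups of elements and of units. -/
theorem result (F : Type*) [Field F] [PerfectField F] (p : ℕ) [Fact p.Prime] [CharP F p]
    (K : Type*) [Field K] [Algebra F[X] K] [Algebra (RatFunc F) K]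
    [IsScalarTower F[X] (RatFunc F) K] [FiniteDimensional (RatFunc F) K]
    [Algebra.IsSeparable (RatFunc F) K] :
    (∀ Γ : Subgroup (integralClosure F[X] K)ˣ, Γ.FG →
      {P : F[X] | P.Monic ∧ Irreducible P ∧ ¬ ∀ ε ∈ Γ,
        (∃ m : ℕ, ¬ p ∣ m ∧ algebraMap F[X] (integralClosure F[X] K) P ^ 2 ∣
          (ε : integralClosure F[X] K) ^ m - 1) →
        ∃ η : (integralClosure F[X] K)ˣ, η ^ p = ε}.Finite) ∧
    (∀ Γ : Subgroup Kˣ, Γ.FG →
      {P : F[X] | P.Monic ∧ Irreducible P ∧ ¬ ∀ ε ∈ Γ,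
        (∃ m : ℕ, ¬ p ∣ m ∧ CongrOne P ((ε : K) ^ m)) → ∃ η : Kˣ, η ^ p = ε}.Finite) := by
  constructor
  · intro Γ hΓ
    set φ : (integralClosure F[X] K)ˣ →* Kˣ :=
      Units.map (algebraMap (integralClosure F[X] K) K : integralClosure F[X] K →* K) with hφ
    have hfg : (Γ.map φ).FG := by
      classical
      obtain ⟨S, hS⟩ := hΓ
      exact ⟨S.image φ, by rw [Finset.coe_image, ← MonoidHom.map_closure, hS]⟩
    refine (finite_general F p K (Γ.map φ) hfg).subset ?_
    rintro P ⟨hm, hP, h⟩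
    push Not at h
    obtain ⟨ε, hε, ⟨m, hpm, hdiv⟩, hnot⟩ := h
    refine ⟨hm, hP, φ ε, Subgroup.mem_map_of_mem _ hε, ?_, m, hpm, ?_⟩
    · rintro ⟨η, hη⟩
      have hp0 : 0 < p := (Fact.out : p.Prime).pos
      have h1 : (η : K) ^ p = ((ε : integralClosure F[X] K) : K) := by
        have := congrArg (fun z : Kˣ => (z : K)) hη
        simpa [hφ] using this
      have h2 : IsIntegral F[X] (η : K) := IsIntegral.of_pow hp0 (by rw [h1]; exact (ε : integralClosure F[X] K).2)
      have h3 : (⟨(η : K), h2⟩ : integralClosure F[X] K) ^ p = (ε : integralClosure F[X] K) :=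
        Subtype.ext (by simpa using h1)
      have h4 : IsUnit (⟨(η : K), h2⟩ : integralClosure F[X] K) := by
        rw [← isUnit_pow_iff hp0.ne', h3]; exact ε.isUnit
      refine hnot h4.unit (Units.ext ?_)
      rw [Units.val_pow_eq_pow_val]
      exact h3
    · obtain ⟨z, hz⟩ := hdiv
      refine ⟨1, z, fun h1 => hP.not_isUnit (isUnit_of_dvd_one h1), z.2, ?_⟩
      have := congrArg (fun z : integralClosure F[X] K => (z : K)) hz
      rw [map_one, one_mul]
      simpa [hφ] using this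
  · intro Γ hΓ
    refine (finite_general F p K Γ hΓ).subset ?_
    rintro P ⟨hm, hP, h⟩
    push Not at h
    obtain ⟨ε, hε, ⟨m, hpm, hdiv⟩, hnot⟩ := h
    exact ⟨hm, hP, ε, hε, fun ⟨η, hη⟩ => hnot η hη, m, hpm, hdiv⟩

end Pool.Agent.Results.MP_1a2828_nt.FunctionFields
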