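import Mathlib
import Pool.Agent.helper62.GR.QMain
import Pool.Agent.helper62.GR.QRam

/-!
# Real quadratic function fields: the exceptional primes of the normalized regulator
-/

set_option autoImplicit false

namespace Pool.Agent.Results.MP_1a2828_nt.QuadraticExplicit

open Polynomial

/-- The ring `F[t][√D]`. -/
abbrev O {F : Type*} [Field F] (D : F[X]) : Type _ := QuadraticAlgebra F[X] D 0

/-- `x ≡ 1` modulo `P ^ 2` in `F[t][√D]`. -/
def CongrOne {F : Type*} [Field F] {D : F[X]} (P : F[X]) (x : O D) : Prop :=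
  algebraMap F[X] (O D) P ^ 2 ∣ x - 1

/-- Some power `ε ^ m`, with `m` prime to `p`, is `1` modulo `P ^ 2`. -/
def Wieferich {F : Type*} [Field F] (p : ℕ) {D : F[X]} (P : F[X]) (ε : (O D)ˣ) : Prop :=
  ∃ m : ℕ, ¬ p ∣ m ∧ CongrOne P ((ε : O D) ^ m)

open Pool.Agent.helper62.GR

theorem key (F : Type*) [Field F] [Finite F] (p : ℕ) [Fact p.Prime] [CharP F p] (hp2 : p ≠ 2)
    (D : F[X]) (hD : Squarefree D) (hdeg : 0 < D.natDegree) (ε : (O D)ˣ)
    (hε : ¬ ∃ η : (O D)ˣ, η ^ p = ε) :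
    (ε : O D).im ≠ 0 ∧ ∃ v : F[X], v ≠ 0 ∧
      (ε : O D).im * v = 2 * derivative (ε : O D).re ∧ 2 * v.natDegree + 2 ≤ D.natDegree ∧
      (∀ P : F[X], Irreducible P → ¬ P ∣ D →
        (P ∣ v ↔ CongrOne P ((ε : O D) ^ ((Nat.card F ^ P.natDegree) ^ 2 - 1))) ∧
        (P ∣ v ↔ Wieferich p P ε)) ∧
      ∀ P : F[X], Irreducible P → P ∣ D → (P ∣ v ↔ P ∣ (ε : O D).im) := by
  have hp0 : 0 < p := (Fact.out : p.Prime).pos
  obtain ⟨hb, v, hv0, hv1, hv2, hv3⟩ := quad p hp2 hD hdeg (ε : O D) ε.isUnit (by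
      rintro ⟨η, hη⟩
      have h4 : IsUnit η := by rw [← isUnit_pow_iff hp0.ne', hη]; exact ε.isUnit
      exact hε ⟨h4.unit, Units.ext (by rw [Units.val_pow_eq_pow_val]; exact hη)⟩)
  refine ⟨hb, v, hv0, hv1, hv2, fun P hP hPD => ?_,
    fun P hP hPD => ram hD (ε : O D) ε.isUnit hb hv1 hP hPD⟩
  obtain ⟨h1, h2⟩ := hv3 P hP hPD
  rw [mul_comm 2 P.natDegree, pow_mul] at h1
  have hM : ¬ p ∣ (Nat.card F ^ P.natDegree) ^ 2 - 1 := by
    obtain ⟨r, hr, hq⟩ := card_pow (F := F) p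
    intro h
    have h3 : p ∣ (Nat.card F ^ P.natDegree) ^ 2 := by
      rw [hq, ← pow_mul, ← pow_mul]
      exact dvd_pow_self _ (by
        have := hP.natDegree_pos
        positivity)
    have h4 : 0 < (Nat.card F ^ P.natDegree) ^ 2 := pow_pos (pow_pos Nat.card_pos _) _
    have h5 : p ∣ 1 := by
      have := (Nat.dvd_sub_iff_right (by omega) h3).1 h
      exact this
    exact (Fact.out : p.Prime).one_lt.ne' (Nat.dvd_one.1 h5)
  exact ⟨⟨h1, fun h => h2 ⟨_, hM, h⟩⟩, ⟨fun h => ⟨_, hM, h1 h⟩, h2⟩⟩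

/-- All units of `F[t][√D]`: the exceptional primes are the prime divisors of `2 a' / b`, and
their degrees are less than half the degree of `D`. -/
theorem result (F : Type*) [Field F] [Finite F] (p : ℕ) [Fact p.Prime] [CharP F p] (hp2 : p ≠ 2)
    (D : F[X]) (hD : Squarefree D) (hdeg : 0 < D.natDegree) :
    (∀ ε : (O D)ˣ, (¬ ∃ η : (O D)ˣ, η ^ p = ε) →
      (ε : O D).im ≠ 0 ∧ ∃ v : F[X], v ≠ 0 ∧
        (ε : O D).im * v = 2 * derivative (ε : O D).re ∧ 2 * v.natDegree + 2 ≤ D.natDegree ∧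
        (∀ P : F[X], Irreducible P → ¬ P ∣ D →
          (P ∣ v ↔ CongrOne P ((ε : O D) ^ ((Nat.card F ^ P.natDegree) ^ 2 - 1))) ∧
          (P ∣ v ↔ Wieferich p P ε)) ∧
        ∀ P : F[X], Irreducible P → P ∣ D → (P ∣ v ↔ P ∣ (ε : O D).im)) ∧
    ∀ P : F[X], Irreducible P → D.natDegree ≤ 2 * P.natDegree →
      ∀ ε : (O D)ˣ, (¬ P ∣ D → Wieferich p P ε) → (P ∣ D → P ∣ (ε : O D).im) →
        ∃ η : (O D)ˣ, η ^ p = ε := by
  refine ⟨fun ε hε => key F p hp2 D hD hdeg ε hε, fun P hP hdP ε h1 h2 => ?_⟩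
  by_contra hnot
  obtain ⟨_, v, hv0, _, hv2, hv3, hv4⟩ := key F p hp2 D hD hdeg ε hnot
  have h3 : P ∣ v := by
    by_cases hPD : P ∣ D
    · exact (hv4 P hP hPD).2 (h2 hPD)
    · exact ((hv3 P hP hPD).2).2 (h1 hPD)
  have h4 := natDegree_le_of_dvd h3 hv0
  omega

end Pool.Agent.Results.MP_1a2828_nt.QuadraticExplicit
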